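import Mathlib
import Pool.Agent.H34.Ident

namespace Pool.Agent.Results.MP_4c2ece_co.Broom
open Pool.Agent.H34.IdentDefs

/-- A minor-closed class `H` and graphs `G n` with `id_H(G n) ≤ 2` and `n ≤ ec_H(G n) < ∞`. -/
theorem result : ∃ (H : FG → Prop) (G : ℕ → FG), MinorClosed H ∧ ∀ n, Ident H (G n) 2 ∧
    (∃ k B, Contrs k (G n) B ∧ H B) ∧ ∀ k B, Contrs k (G n) B → H B → n ≤ k :=
  Pool.Agent.H34.Ident.main

end Pool.Agent.Results.MP_4c2ece_co.Broom
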